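import Mathlib

/-!
# MP_bfa556_co: the set `T_n^*` of transpositions does not tile `S_n` for most `n`

For a colouring `c` of the `n` points, a tiling set `Y` gives a function on the words `c ∘ y⁻¹` on
which the transposition sum operator is constant.  We prove (elementarily, by an explicit sum of
squares) that this operator is at least the content of the colour partition, so if the content is
positive the function is constant, and counting gives `n (n-1) ∣ 2 ∏ |c⁻¹(i)|!`.  The colouring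
`a ↦ a / (p-1)` then excludes every `n` such that some prime `p ∣ n (n-1)` has `n ≤ (p-1)(p-2)`.
-/

set_option autoImplicit false

namespace Pool.Agent.Results.MP_bfa556_co.TranspositionsDoNotTile

open Finset Classical Equiv

abbrev Wd (n : ℕ) := Fin n → Fin n

lemma upd {n : ℕ} (a : Fin n) (i j : Fin n) (F : Wd n → ℝ) :
    ∑ w : Wd n, (if w a = i then F (Function.update w a j) else 0)
      = ∑ w : Wd n, (if w a = j then F w else 0) := by
  rw [← Finset.sum_filter, ← Finset.sum_filter]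
  refine Finset.sum_nbij' (fun w => Function.update w a j) (fun w => Function.update w a i) ?_ ?_ ?_ ?_ ?_
  · intro w _
    simp
  · intro w _
    simp
  · intro w hw
    have : w a = i := (Finset.mem_filter.mp hw).2
    simp only [Function.update_idem]
    rw [← this, Function.update_eq_self]
  · intro w hw
    have : w a = j := (Finset.mem_filter.mp hw).2
    simp only [Function.update_idem]
    rw [← this, Function.update_eq_self]
  · intro w _
    rfl

lemma X_eq {n : ℕ} (v : Wd n → ℝ) (i j : Fin n) :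
    ∑ w : Wd n, (∑ a : Fin n, if w a = i then v (Function.update w a j) else 0)^2
      = ∑ a : Fin n, ∑ b : Fin n, ∑ w : Wd n,
        (if w a = j then v w * (if a = b then v w else if w b = i then v (w ∘ swap a b) else 0) else 0) := by
  have h1 : ∀ w : Wd n, (∑ a : Fin n, if w a = i then v (Function.update w a j) else 0)^2
      = ∑ a : Fin n, ∑ b : Fin n, (if w a = i then
          (fun w' : Wd n => v w' * (if a = b then v w' else if w' b = i then v (w' ∘ swap a b) else 0))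
            (Function.update w a j) else 0) := by
    intro w
    rw [sq, Finset.sum_mul_sum]
    apply Finset.sum_congr rfl
    intro a _
    apply Finset.sum_congr rfl
    intro b _
    by_cases ha : w a = i
    · simp only [if_pos ha]
      by_cases hab : a = b
      · subst hab
        simp [ha]
      · simp only [if_neg hab]
        have hb : Function.update w a j b = w b := Function.update_of_ne (Ne.symm hab) _ _
        rw [hb]
        by_cases hbi : w b = i
        · simp only [if_pos hbi]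
          congr 2
          funext x
          simp only [Function.comp]
          by_cases hxa : x = a
          · subst hxa
            rw [swap_apply_left, hb, Function.update_of_ne hab, ha, hbi]
          · by_cases hxb : x = b
            · subst hxb
              rw [swap_apply_right, Function.update_self, Function.update_self]
            · rw [swap_apply_of_ne_of_ne hxa hxb, Function.update_of_ne hxb, Function.update_of_ne hxa]
        · simp only [if_neg hbi]
    · simp only [if_neg ha, zero_mul]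
  rw [Finset.sum_congr rfl (fun w _ => h1 w), Finset.sum_comm]
  apply Finset.sum_congr rfl
  intro a _
  rw [Finset.sum_comm]
  apply Finset.sum_congr rfl
  intro b _
  exact upd a i j (fun w' : Wd n => v w' * (if a = b then v w' else if w' b = i then v (w' ∘ swap a b) else 0))

lemma star {n : ℕ} (v : Wd n → ℝ) :
    0 ≤ ∑ w : Wd n, ((v w)^2 * ∑ a : Fin n, ((w a : ℕ) : ℝ)
      + v w * ∑ a : Fin n, ∑ b : Fin n, (if w b < w a then v (w ∘ swap a b) else 0)) := by
  have h0 : 0 ≤ ∑ j : Fin n, ∑ i ∈ Finset.univ.filter (fun i : Fin n => i < j),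
      ∑ w : Wd n, (∑ a : Fin n, if w a = i then v (Function.update w a j) else 0)^2 :=
    Finset.sum_nonneg (fun j _ => Finset.sum_nonneg (fun i _ => Finset.sum_nonneg (fun w _ => sq_nonneg _)))
  have h1 : ∑ j : Fin n, ∑ i ∈ Finset.univ.filter (fun i : Fin n => i < j),
      ∑ w : Wd n, (∑ a : Fin n, if w a = i then v (Function.update w a j) else 0)^2
      = ∑ a : Fin n, ∑ b : Fin n, ∑ w : Wd n,
        (if a = b then (v w)^2 * ((w a : ℕ) : ℝ) else (if w b < w a then v w * v (w ∘ swap a b) else 0)) := by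
    simp only [X_eq]
    have e1 : ∀ j : Fin n, ∑ i ∈ Finset.univ.filter (fun i : Fin n => i < j),
        ∑ a : Fin n, ∑ b : Fin n, ∑ w : Wd n,
        (if w a = j then v w * (if a = b then v w else if w b = i then v (w ∘ swap a b) else 0) else 0)
        = ∑ a : Fin n, ∑ b : Fin n, ∑ w : Wd n, (if w a = j then
          (if a = b then (v w)^2 * ((w a : ℕ) : ℝ) else (if w b < w a then v w * v (w ∘ swap a b) else 0)) else 0) := by
      intro j
      rw [Finset.sum_comm]
      apply Finset.sum_congr rfl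
      intro a _
      rw [Finset.sum_comm]
      apply Finset.sum_congr rfl
      intro b _
      rw [Finset.sum_comm]
      apply Finset.sum_congr rfl
      intro w _
      by_cases hj : w a = j
      · simp only [if_pos hj]
        by_cases hab : a = b
        · simp only [if_pos hab]
          rw [Finset.sum_const, nsmul_eq_mul]
          have : (Finset.univ.filter (fun i : Fin n => i < j)).card = (j : ℕ) := by
            rw [show (Finset.univ.filter (fun i : Fin n => i < j)) = Finset.Iio j from by ext x; simp]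
            simp
          rw [this, hj]; ring
        · simp only [if_neg hab]
          rw [← Finset.mul_sum, Finset.sum_ite_eq]
          rw [hj]
          by_cases hlt : w b < j
          · rw [if_pos (by simp [hlt]), if_pos hlt]
          · rw [if_neg (by simp [hlt]), if_neg hlt, mul_zero]
      · simp only [if_neg hj]
        simp
    rw [Finset.sum_congr rfl (fun j _ => e1 j), Finset.sum_comm]
    apply Finset.sum_congr rfl
    intro a _
    rw [Finset.sum_comm]
    apply Finset.sum_congr rfl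
    intro b _
    rw [Finset.sum_comm]
    apply Finset.sum_congr rfl
    intro w _
    rw [Finset.sum_ite_eq]
    simp
  have h2 : ∑ a : Fin n, ∑ b : Fin n, ∑ w : Wd n,
        (if a = b then (v w)^2 * ((w a : ℕ) : ℝ) else (if w b < w a then v w * v (w ∘ swap a b) else 0))
      = ∑ w : Wd n, ((v w)^2 * ∑ a : Fin n, ((w a : ℕ) : ℝ)
      + v w * ∑ a : Fin n, ∑ b : Fin n, (if w b < w a then v (w ∘ swap a b) else 0)) := by
    have e2 : ∀ w : Wd n, ((v w)^2 * ∑ a : Fin n, ((w a : ℕ) : ℝ)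
      + v w * ∑ a : Fin n, ∑ b : Fin n, (if w b < w a then v (w ∘ swap a b) else 0))
      = ∑ a : Fin n, ∑ b : Fin n, (if a = b then (v w)^2 * ((w a : ℕ) : ℝ) else (if w b < w a then v w * v (w ∘ swap a b) else 0)) := by
      intro w
      rw [Finset.mul_sum, Finset.mul_sum, ← Finset.sum_add_distrib]
      apply Finset.sum_congr rfl
      intro a _
      have e3 : (v w)^2 * ((w a : ℕ) : ℝ) = ∑ b : Fin n, (if a = b then (v w)^2 * ((w a : ℕ) : ℝ) else 0) := by
        simp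
      rw [e3, Finset.mul_sum, ← Finset.sum_add_distrib]
      apply Finset.sum_congr rfl
      intro b _
      by_cases hab : a = b
      · subst hab; simp
      · simp only [if_neg hab]
        split_ifs <;> simp
    rw [Finset.sum_congr rfl (fun w _ => e2 w)]
    rw [Finset.sum_congr rfl (fun a _ => Finset.sum_comm), Finset.sum_comm]
  rw [h1, h2] at h0
  exact h0

/-- off-diagonal swap sum -/
lemma split_sum {n : ℕ} (u : Wd n → ℝ) (w : Wd n) :
    ∑ a : Fin n, ∑ b : Fin n, (if a ≠ b then u (w ∘ swap a b) else 0)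
      = u w * ∑ a : Fin n, ∑ b : Fin n, (if a ≠ b ∧ w a = w b then (1:ℝ) else 0)
        + 2 * ∑ a : Fin n, ∑ b : Fin n, (if w b < w a then u (w ∘ swap a b) else 0) := by
  have h1 : ∑ a : Fin n, ∑ b : Fin n, (if w b < w a then u (w ∘ swap a b) else 0)
      = ∑ a : Fin n, ∑ b : Fin n, (if w a < w b then u (w ∘ swap a b) else 0) := by
    rw [Finset.sum_comm]
    apply Finset.sum_congr rfl
    intro a _
    apply Finset.sum_congr rfl
    intro b _
    rw [swap_comm]
  have h2 : 2 * ∑ a : Fin n, ∑ b : Fin n, (if w b < w a then u (w ∘ swap a b) else 0)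
      = ∑ a : Fin n, ∑ b : Fin n, ((if w b < w a then u (w ∘ swap a b) else 0)
        + (if w a < w b then u (w ∘ swap a b) else 0)) := by
    rw [two_mul]
    nth_rewrite 2 [h1]
    rw [← Finset.sum_add_distrib]
    apply Finset.sum_congr rfl
    intro a _
    rw [← Finset.sum_add_distrib]
  rw [h2, Finset.mul_sum, ← Finset.sum_add_distrib]
  apply Finset.sum_congr rfl
  intro a _
  rw [Finset.mul_sum, ← Finset.sum_add_distrib]
  apply Finset.sum_congr rfl
  intro b _
  by_cases hab : a = b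
  · subst hab; simp
  · rcases lt_trichotomy (w a) (w b) with h | h | h
    · simp [hab, h, h.ne, not_lt.mpr h.le]
    · have : w ∘ swap a b = w := by
        funext x
        simp only [Function.comp]
        by_cases hxa : x = a
        · subst hxa; rw [swap_apply_left, h]
        · by_cases hxb : x = b
          · subst hxb; rw [swap_apply_right, h]
          · rw [swap_apply_of_ne_of_ne hxa hxb]
      simp [hab, h, this]
    · simp [hab, h, h.ne', not_lt.mpr h.le]

/-- the kernel statement -/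
lemma kernel {n : ℕ} (u : Wd n → ℝ)
    (hzero : ∀ w, u w ≠ 0 → ∑ a : Fin n, ∑ b : Fin n, (if a ≠ b then u (w ∘ swap a b) else 0) = 0)
    (hpos : ∀ w, u w ≠ 0 → 2 * ∑ a : Fin n, ((w a : ℕ) : ℝ)
      < ∑ a : Fin n, ∑ b : Fin n, (if a ≠ b ∧ w a = w b then (1:ℝ) else 0)) :
    ∀ w, u w = 0 := by
  have h := star u
  by_contra hcon
  push Not at hcon
  obtain ⟨w0, hw0⟩ := hcon
  have h1 : ∀ w : Wd n, 2 * ((u w)^2 * ∑ a : Fin n, ((w a : ℕ) : ℝ)
      + u w * ∑ a : Fin n, ∑ b : Fin n, (if w b < w a then u (w ∘ swap a b) else 0))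
      = (u w)^2 * (2 * ∑ a : Fin n, ((w a : ℕ) : ℝ)
        - ∑ a : Fin n, ∑ b : Fin n, (if a ≠ b ∧ w a = w b then (1:ℝ) else 0)) := by
    intro w
    by_cases hu : u w = 0
    · rw [hu]; ring
    · have e := hzero w hu
      rw [split_sum] at e
      have e' : 2 * ∑ a : Fin n, ∑ b : Fin n, (if w b < w a then u (w ∘ swap a b) else 0)
          = - (u w * ∑ a : Fin n, ∑ b : Fin n, (if a ≠ b ∧ w a = w b then (1:ℝ) else 0)) := by linarith
      calc 2 * ((u w)^2 * ∑ a : Fin n, ((w a : ℕ) : ℝ)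
          + u w * ∑ a : Fin n, ∑ b : Fin n, (if w b < w a then u (w ∘ swap a b) else 0))
          = (u w)^2 * (2 * ∑ a : Fin n, ((w a : ℕ) : ℝ))
            + u w * (2 * ∑ a : Fin n, ∑ b : Fin n, (if w b < w a then u (w ∘ swap a b) else 0)) := by ring
        _ = _ := by rw [e']; ring
  have h2 : 0 ≤ ∑ w : Wd n, (u w)^2 * (2 * ∑ a : Fin n, ((w a : ℕ) : ℝ)
        - ∑ a : Fin n, ∑ b : Fin n, (if a ≠ b ∧ w a = w b then (1:ℝ) else 0)) := by
    rw [← Finset.sum_congr rfl (fun w _ => h1 w), ← Finset.mul_sum]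
    linarith
  have h3 : ∑ w : Wd n, (u w)^2 * (2 * ∑ a : Fin n, ((w a : ℕ) : ℝ)
        - ∑ a : Fin n, ∑ b : Fin n, (if a ≠ b ∧ w a = w b then (1:ℝ) else 0)) < 0 := by
    apply Finset.sum_neg' _ _
    · intro w _
      by_cases hu : u w = 0
      · rw [hu]; simp
      · exact mul_nonpos_of_nonneg_of_nonpos (sq_nonneg _) (by linarith [hpos w hu])
    · exact ⟨w0, Finset.mem_univ _, mul_neg_of_pos_of_neg (by positivity) (by linarith [hpos w0 hw0])⟩
  linarith

/-- `T` tiles `S_n`: every `g` factors uniquely as `t * y` with `t ∈ T`, `y ∈ Y`. -/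
def Tiles (n : ℕ) (T : Set (Perm (Fin n))) : Prop :=
  ∃ Y : Set (Perm (Fin n)), ∀ g : Perm (Fin n),
    ∃! q : Perm (Fin n) × Perm (Fin n), q.1 ∈ T ∧ q.2 ∈ Y ∧ q.1 * q.2 = g

lemma swap_inj {n : ℕ} (a b a' b' : Fin n) (h : a < b) (h' : a' < b') (e : swap a b = swap a' b') :
    a = a' ∧ b = b' := by
  have h1 : swap a' b' a = b := by rw [← e, swap_apply_left]
  by_cases ha : a = a'
  · subst ha
    rw [swap_apply_left] at h1
    exact ⟨rfl, h1.symm⟩
  · by_cases hb : a = b'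
    · subst hb
      rw [swap_apply_right] at h1
      subst h1
      exact absurd h (not_lt.mpr h'.le)
    · rw [swap_apply_of_ne_of_ne ha hb] at h1
      exact absurd h1 h.ne

lemma tile_bij {n : ℕ} (Y : Set (Perm (Fin n)))
    (hT : ∀ g : Perm (Fin n), ∃! q : Perm (Fin n) × Perm (Fin n), q.1.IsSwap ∧ q.2 ∈ Y ∧ q.1 * q.2 = g)
    (F : Perm (Fin n) → ℝ) :
    ∑ q ∈ (Finset.univ.filter (fun q : (Fin n × Fin n) × Perm (Fin n) => q.1.1 < q.1.2 ∧ q.2 ∈ Y)),
      F (swap q.1.1 q.1.2 * q.2) = ∑ g : Perm (Fin n), F g := by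
  apply Finset.sum_bij (fun q _ => swap q.1.1 q.1.2 * q.2)
  · intro q _; exact Finset.mem_univ _
  · rintro ⟨⟨a, b⟩, y⟩ h1 ⟨⟨a', b'⟩, y'⟩ h2 e
    have h1' := (Finset.mem_filter.mp h1).2
    have h2' := (Finset.mem_filter.mp h2).2
    simp only at h1' h2' e
    obtain ⟨q, _, hq⟩ := hT (swap a b * y)
    have e1 := hq (swap a b, y) ⟨⟨a, b, h1'.1.ne, rfl⟩, h1'.2, rfl⟩
    have e2 := hq (swap a' b', y') ⟨⟨a', b', h2'.1.ne, rfl⟩, h2'.2, e.symm⟩
    have e3 := e1.trans e2.symm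
    obtain ⟨e4, e5⟩ := Prod.mk.inj e3
    obtain ⟨e6, e7⟩ := swap_inj a b a' b' h1'.1 h2'.1 e4
    rw [e5, e6, e7]
  · intro g _
    obtain ⟨⟨t, y⟩, ⟨⟨x, z, hxz, ht⟩, hy, hg⟩, _⟩ := hT g
    simp only at ht hg hy
    rcases lt_or_gt_of_ne hxz with h | h
    · exact ⟨((x, z), y), Finset.mem_filter.mpr ⟨Finset.mem_univ _, h, hy⟩, by simp only; rw [← ht, hg]⟩
    · refine ⟨((z, x), y), Finset.mem_filter.mpr ⟨Finset.mem_univ _, h, hy⟩, ?_⟩
      simp only
      rw [swap_comm, ← ht, hg]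
  · intro q _; rfl

noncomputable def vY {n : ℕ} (Y : Set (Perm (Fin n))) (c : Wd n) (w : Wd n) : ℝ :=
  ∑ y : Perm (Fin n), if y ∈ Y ∧ c ∘ ⇑(y⁻¹) = w then 1 else 0

lemma word_swap {n : ℕ} (c w : Wd n) (a b : Fin n) (y : Perm (Fin n)) :
    (c ∘ ⇑(y⁻¹) = w ∘ swap a b) ↔ (c ∘ ⇑((swap a b * y)⁻¹) = w) := by
  rw [mul_inv_rev, swap_inv, Perm.coe_mul]
  constructor
  · intro h
    funext x
    have := congrFun h (swap a b x)
    simp only [Function.comp, swap_apply_self] at this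
    exact this
  · intro h
    funext x
    have := congrFun h (swap a b x)
    simp only [Function.comp, swap_apply_self] at this
    exact this

lemma count_lemma {n : ℕ} (Y : Set (Perm (Fin n)))
    (hT : ∀ g : Perm (Fin n), ∃! q : Perm (Fin n) × Perm (Fin n), q.1.IsSwap ∧ q.2 ∈ Y ∧ q.1 * q.2 = g)
    (c w : Wd n) :
    ∑ a : Fin n, ∑ b : Fin n, (if a ≠ b then vY Y c (w ∘ swap a b) else 0)
      = 2 * ∑ g : Perm (Fin n), (if c ∘ ⇑(g⁻¹) = w then (1:ℝ) else 0) := by
  have h1 : ∑ a : Fin n, ∑ b : Fin n, (if a ≠ b then vY Y c (w ∘ swap a b) else 0)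
      = 2 * ∑ a : Fin n, ∑ b : Fin n, (if a < b then vY Y c (w ∘ swap a b) else 0) := by
    have e1 : ∑ a : Fin n, ∑ b : Fin n, (if a < b then vY Y c (w ∘ swap a b) else 0)
        = ∑ a : Fin n, ∑ b : Fin n, (if b < a then vY Y c (w ∘ swap a b) else 0) := by
      rw [Finset.sum_comm]
      apply Finset.sum_congr rfl
      intro a _
      apply Finset.sum_congr rfl
      intro b _
      rw [swap_comm]
    rw [two_mul]
    nth_rewrite 2 [e1]
    rw [← Finset.sum_add_distrib]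
    apply Finset.sum_congr rfl
    intro a _
    rw [← Finset.sum_add_distrib]
    apply Finset.sum_congr rfl
    intro b _
    rcases lt_trichotomy a b with h | h | h
    · simp [h, h.ne, not_lt.mpr h.le]
    · subst h; simp
    · simp [h, h.ne', not_lt.mpr h.le]
  rw [h1]
  congr 1
  rw [← tile_bij Y hT (fun g => if c ∘ ⇑(g⁻¹) = w then (1:ℝ) else 0), Finset.sum_filter,
    Fintype.sum_prod_type, Fintype.sum_prod_type]
  apply Finset.sum_congr rfl
  intro a _
  apply Finset.sum_congr rfl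
  intro b _
  unfold vY
  by_cases hab : a < b
  · rw [if_pos hab]
    apply Finset.sum_congr rfl
    intro y _
    simp only [hab, true_and, word_swap]
    by_cases hy : y ∈ Y
    · simp [hy]
    · simp [hy]
  · simp [hab]

lemma stab_count {n : ℕ} (c : Wd n) (h : Perm (Fin n)) :
    ∑ g : Perm (Fin n), (if c ∘ ⇑(g⁻¹) = c ∘ ⇑(h⁻¹) then (1:ℝ) else 0)
      = ∑ k : Perm (Fin n), (if c ∘ ⇑k = c then (1:ℝ) else 0) := by
  let e : Perm (Fin n) ≃ Perm (Fin n) := (Equiv.inv (Perm (Fin n))).trans (Equiv.mulRight h)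
  rw [← Equiv.sum_comp e (fun k => if c ∘ ⇑k = c then (1:ℝ) else 0)]
  apply Finset.sum_congr rfl
  intro g _
  have he : e g = g⁻¹ * h := rfl
  have : (c ∘ ⇑(g⁻¹) = c ∘ ⇑(h⁻¹)) ↔ (c ∘ ⇑(e g) = c) := by
    rw [he, Perm.coe_mul]
    constructor
    · intro hh
      funext x
      have := congrFun hh (h x)
      simpa using this
    · intro hh
      funext x
      have := congrFun hh (h⁻¹ x)
      simpa using this
  simp only [this]

lemma stab_card {n : ℕ} (c : Wd n) :
    ∑ k : Perm (Fin n), (if c ∘ ⇑k = c then (1:ℝ) else 0)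
      = ((∏ i : Fin n, (Fintype.card {a // c a = i}).factorial : ℕ) : ℝ) := by
  rw [← DomMulAct.stabilizer_card c, Fintype.card_subtype, Finset.card_filter]
  push_cast
  rfl

/-- the certificate: a colouring whose content is positive forces a divisibility -/
lemma divisibility {n : ℕ} (hn : 2 ≤ n) (Y : Set (Perm (Fin n)))
    (hT : ∀ g : Perm (Fin n), ∃! q : Perm (Fin n) × Perm (Fin n), q.1.IsSwap ∧ q.2 ∈ Y ∧ q.1 * q.2 = g)
    (c : Wd n) (hc : 2 * ∑ a : Fin n, ((c a : ℕ) : ℝ)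
      < ∑ a : Fin n, ∑ b : Fin n, (if a ≠ b ∧ c a = c b then (1:ℝ) else 0)) :
    n * (n - 1) ∣ 2 * ∏ i : Fin n, (Fintype.card {a // c a = i}).factorial := by
  set N : ℝ := ∑ k : Perm (Fin n), (if c ∘ ⇑k = c then (1:ℝ) else 0) with hN
  set M : ℝ := (n:ℝ) * ((n:ℝ) - 1) with hM
  have hM0 : M ≠ 0 := by
    have : (2:ℝ) ≤ n := by exact_mod_cast hn
    rw [hM]
    apply mul_ne_zero <;> linarith
  have hcount : ∑ a : Fin n, ∑ b : Fin n, (if a ≠ b then (1:ℝ) else 0) = M := by
    have : ∀ a : Fin n, ∑ b : Fin n, (if a ≠ b then (1:ℝ) else 0) = (n:ℝ) - 1 := by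
      intro a
      have e : ∀ b : Fin n, (if a ≠ b then (1:ℝ) else 0) = 1 - (if a = b then 1 else 0) := by
        intro b; by_cases h : a = b <;> simp [h]
      rw [Finset.sum_congr rfl (fun b _ => e b), Finset.sum_sub_distrib]
      simp
    rw [Finset.sum_congr rfl (fun a _ => this a)]
    simp [hM]
    ring
  let u : Wd n → ℝ := fun w => if (∃ g : Perm (Fin n), c ∘ ⇑(g⁻¹) = w) then vY Y c w - 2 * N / M else 0
  have hu0 : ∀ w, u w ≠ 0 → ∃ g : Perm (Fin n), c ∘ ⇑(g⁻¹) = w := by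
    intro w hw
    by_contra hcon
    exact hw (if_neg hcon)
  have hu1 : ∀ w, (∃ g : Perm (Fin n), c ∘ ⇑(g⁻¹) = w) → u w = vY Y c w - 2 * N / M :=
    fun w hw => if_pos hw
  have hk := kernel u (by
    intro w hw
    obtain ⟨g, hg⟩ := hu0 w hw
    have hmem : ∀ a b : Fin n, ∃ g' : Perm (Fin n), c ∘ ⇑(g'⁻¹) = w ∘ swap a b := by
      intro a b
      refine ⟨swap a b * g, ?_⟩
      have e := (word_swap c (w ∘ swap a b) a b g).mp
      apply e
      rw [hg]
      funext x
      simp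
    have e1 : ∀ a b : Fin n, (if a ≠ b then u (w ∘ swap a b) else 0)
        = (if a ≠ b then vY Y c (w ∘ swap a b) else 0) - (2 * N / M) * (if a ≠ b then (1:ℝ) else 0) := by
      intro a b
      rw [hu1 _ (hmem a b)]
      split_ifs <;> simp
    simp only [e1, Finset.sum_sub_distrib, ← Finset.mul_sum]
    rw [hcount, count_lemma Y hT c w, ← hg, stab_count c g, ← hN]
    field_simp
    ring) (by
    intro w hw
    obtain ⟨g, hg⟩ := hu0 w hw
    rw [← hg]
    have e1 : ∑ a : Fin n, (((c ∘ ⇑(g⁻¹)) a : ℕ) : ℝ) = ∑ a : Fin n, ((c a : ℕ) : ℝ) :=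
      Equiv.sum_comp g⁻¹ (fun a => ((c a : ℕ) : ℝ))
    have e2 : ∑ a : Fin n, ∑ b : Fin n, (if a ≠ b ∧ (c ∘ ⇑(g⁻¹)) a = (c ∘ ⇑(g⁻¹)) b then (1:ℝ) else 0)
        = ∑ a : Fin n, ∑ b : Fin n, (if a ≠ b ∧ c a = c b then (1:ℝ) else 0) := by
      rw [← Equiv.sum_comp g⁻¹ (fun a => ∑ b : Fin n, (if a ≠ b ∧ c a = c b then (1:ℝ) else 0))]
      apply Finset.sum_congr rfl
      intro a _
      rw [← Equiv.sum_comp g⁻¹ (fun b => (if (g⁻¹ a) ≠ b ∧ c (g⁻¹ a) = c b then (1:ℝ) else 0))]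
      apply Finset.sum_congr rfl
      intro b _
      have : ((g⁻¹ a) ≠ (g⁻¹ b)) ↔ a ≠ b := (g⁻¹).injective.ne_iff
      simp only [this, Function.comp]
    rw [e1, e2]
    exact hc)
  have h1 := hk c
  rw [hu1 c ⟨1, by simp⟩] at h1
  have h2 : vY Y c c * M = 2 * N := by
    have : vY Y c c = 2 * N / M := by linarith
    rw [this]; field_simp
  obtain ⟨V, hV⟩ : ∃ V : ℕ, vY Y c c = (V : ℝ) := by
    refine ⟨(Finset.univ.filter (fun y : Perm (Fin n) => y ∈ Y ∧ c ∘ ⇑(y⁻¹) = c)).card, ?_⟩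
    unfold vY
    rw [Finset.card_filter]
    push_cast
    rfl
  rw [hV, hN, stab_card c, hM] at h2
  refine ⟨V, ?_⟩
  have h3 : ((2 * ∏ i : Fin n, (Fintype.card {a // c a = i}).factorial : ℕ) : ℝ) = ((n * (n-1) * V : ℕ) : ℝ) := by
    push_cast [Nat.cast_sub (show 1 ≤ n by omega)]
    push_cast at h2
    rw [← h2]; ring
  exact_mod_cast h3

/-! ### the arithmetic of the colouring `a ↦ a / m` -/

lemma count_class (m n : ℕ) (hm : 0 < m) :
    ∑ a ∈ Finset.range n, (if a / m = n / m then (1:ℤ) else 0) = ((n % m : ℕ) : ℤ) := by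
  rw [← Finset.sum_filter, Finset.sum_const, nsmul_eq_mul, mul_one]
  have : (Finset.range n).filter (fun a => a / m = n / m) = Finset.Ico (m * (n / m)) n := by
    ext a
    simp only [Finset.mem_filter, Finset.mem_range, Finset.mem_Ico]
    constructor
    · rintro ⟨h1, h2⟩
      refine ⟨?_, h1⟩
      rw [← h2]
      exact Nat.mul_div_le a m
    · rintro ⟨h1, h2⟩
      refine ⟨h2, ?_⟩
      apply le_antisymm (Nat.div_le_div_right h2.le)
      rw [Nat.le_div_iff_mul_le hm, mul_comm]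
      exact h1
  rw [this, Nat.card_Ico]
  have := Nat.div_add_mod n m
  norm_cast
  omega

lemma E_formula (m n : ℕ) (hm : 0 < m) :
    ∑ a ∈ Finset.range n, ∑ b ∈ Finset.range n, (if a ≠ b ∧ a / m = b / m then (1:ℤ) else 0)
      = 2 * ∑ a ∈ Finset.range n, ((a % m : ℕ) : ℤ) := by
  induction n with
  | zero => simp
  | succ n ih =>
    rw [Finset.sum_range_succ, Finset.sum_range_succ (fun a => ((a % m : ℕ) : ℤ))]
    have h1 : ∑ a ∈ Finset.range n, ∑ b ∈ Finset.range (n+1), (if a ≠ b ∧ a / m = b / m then (1:ℤ) else 0)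
        = ∑ a ∈ Finset.range n, ∑ b ∈ Finset.range n, (if a ≠ b ∧ a / m = b / m then (1:ℤ) else 0)
          + ∑ a ∈ Finset.range n, (if a / m = n / m then (1:ℤ) else 0) := by
      rw [← Finset.sum_add_distrib]
      apply Finset.sum_congr rfl
      intro a ha
      rw [Finset.sum_range_succ]
      have : a ≠ n := (Finset.mem_range.mp ha).ne
      simp [this]
    have h2 : ∑ b ∈ Finset.range (n+1), (if n ≠ b ∧ n / m = b / m then (1:ℤ) else 0)
        = ∑ a ∈ Finset.range n, (if a / m = n / m then (1:ℤ) else 0) := by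
      rw [Finset.sum_range_succ]
      simp only [ne_eq, not_true_eq_false, false_and, if_false, add_zero]
      apply Finset.sum_congr rfl
      intro a ha
      have : n ≠ a := (Finset.mem_range.mp ha).ne'
      simp [this, eq_comm]
    rw [h1, h2, ih, count_class m n hm]
    ring

lemma D_formula (m n : ℕ) (hm : 0 < m) :
    2 * ∑ a ∈ Finset.range n, ((a % m : ℕ) : ℤ) - 2 * ∑ a ∈ Finset.range n, ((a / m : ℕ) : ℤ)
      = (m:ℤ) * (n / m : ℕ) * ((m:ℤ) - (n / m : ℕ)) + ((n % m : ℕ) : ℤ) * (((n % m : ℕ) : ℤ) - 1)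
        - 2 * ((n / m : ℕ) : ℤ) * ((n % m : ℕ) : ℤ) := by
  induction n with
  | zero => simp
  | succ n ih =>
    rw [Finset.sum_range_succ, Finset.sum_range_succ]
    have hn := Nat.div_add_mod n m
    have hj := Nat.mod_lt n hm
    obtain ⟨i, hi⟩ : ∃ i, i = n / m := ⟨_, rfl⟩
    obtain ⟨j, hj'⟩ : ∃ j, j = n % m := ⟨_, rfl⟩
    rw [← hi, ← hj'] at ih hn ⊢
    rw [← hj'] at hj
    by_cases hlt : j + 1 < m
    · have e1 : (n+1) / m = i := by
        rw [← hn, add_assoc, Nat.mul_add_div hm, Nat.div_eq_of_lt hlt, add_zero]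
      have e2 : (n+1) % m = j + 1 := by
        rw [← hn, add_assoc, Nat.mul_add_mod, Nat.mod_eq_of_lt hlt]
      rw [e1, e2]
      simp only [Nat.cast_add, Nat.cast_one]
      linarith
    · have hjm : j + 1 = m := by omega
      have e0 : n + 1 = m * (i + 1) := by rw [← hn, mul_add, mul_one]; omega
      have e1 : (n+1) / m = i + 1 := by rw [e0, Nat.mul_div_cancel_left _ hm]
      have e2 : (n+1) % m = 0 := by rw [e0, Nat.mul_mod_right]
      rw [e1, e2]
      have hmj : (m:ℤ) = j + 1 := by exact_mod_cast hjm.symm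
      rw [hmj] at ih ⊢
      simp only [Nat.cast_add, Nat.cast_one, Nat.cast_zero]
      linarith

lemma D_pos (m n : ℕ) (hm : 2 ≤ m) (hn : 2 ≤ n) (hnm : n ≤ m * (m - 1)) :
    2 * ∑ a ∈ Finset.range n, ((a / m : ℕ) : ℤ)
      < ∑ a ∈ Finset.range n, ∑ b ∈ Finset.range n, (if a ≠ b ∧ a / m = b / m then (1:ℤ) else 0) := by
  rw [E_formula m n (by omega)]
  have h := D_formula m n (by omega)
  suffices hpos : 0 < (m:ℤ) * (n / m : ℕ) * ((m:ℤ) - (n / m : ℕ)) + ((n % m : ℕ) : ℤ) * (((n % m : ℕ) : ℤ) - 1)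
        - 2 * ((n / m : ℕ) : ℤ) * ((n % m : ℕ) : ℤ) by linarith
  have hn' := Nat.div_add_mod n m
  have hj := Nat.mod_lt n (show 0 < m by omega)
  obtain ⟨i, hi⟩ : ∃ i, i = n / m := ⟨_, rfl⟩
  obtain ⟨j, hj'⟩ : ∃ j, j = n % m := ⟨_, rfl⟩
  rw [← hi, ← hj'] at hn' ⊢
  rw [← hj'] at hj
  obtain ⟨k, rfl⟩ : ∃ k, m = k + 2 := ⟨m - 2, by omega⟩
  have hk : k + 2 - 1 = k + 1 := by omega
  rw [hk] at hnm
  have hik : i ≤ k + 1 := by
    by_contra hcon
    have : (k+2) * (k+2) ≤ (k+2) * i := Nat.mul_le_mul_left _ (by omega)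
    nlinarith
  rcases Nat.eq_zero_or_pos i with h0 | h0
  · subst h0
    have : j = n := by omega
    have h2 : (2:ℤ) ≤ j := by exact_mod_cast (this ▸ hn)
    push_cast
    nlinarith
  · rcases Nat.lt_or_ge i (k+1) with h1 | h1
    · have hi1 : (1:ℤ) ≤ i := by exact_mod_cast h0
      have hi2 : (i:ℤ) ≤ k := by exact_mod_cast (by omega : i ≤ k)
      have h3 : 0 ≤ ((j:ℤ) - i) * ((j:ℤ) - i - 1) := by
        rcases le_or_gt ((j:ℤ) - i) 0 with h | h
        · nlinarith
        · have : 1 ≤ (j:ℤ) - i := h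
          nlinarith
      have h4 : 0 < (i:ℤ) * (((k:ℤ)+2) * ((k:ℤ)+2-i) - i - 1) := by
        apply mul_pos (by linarith)
        nlinarith
      push_cast
      nlinarith
    · have hi1 : i = k + 1 := by omega
      subst hi1
      have hj0 : j = 0 := by
        have : (k+2) * (k+1) + j ≤ (k+2) * (k+1) := by rw [hn']; exact hnm
        omega
      subst hj0
      push_cast
      nlinarith

lemma class_card (m n : ℕ) (hm : 0 < m) (c : Fin n → Fin n) (hc : ∀ a, ((c a : ℕ)) = (a : ℕ) / m)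
    (i : Fin n) : Fintype.card {a // c a = i} ≤ m := by
  have h : Function.Injective (fun a : {a // c a = i} => (⟨(a.1 : ℕ) % m, Nat.mod_lt _ hm⟩ : Fin m)) := by
    rintro ⟨a, ha⟩ ⟨b, hb⟩ e
    simp only [Fin.mk.injEq] at e
    have h1 : (a : ℕ) / m = (b : ℕ) / m := by rw [← hc, ← hc, ha, hb]
    have h2 := Nat.div_add_mod (a : ℕ) m
    have h3 := Nat.div_add_mod (b : ℕ) m
    apply Subtype.ext
    apply Fin.ext
    show (a : ℕ) = b
    rw [← h2, ← h3, h1, e]
  have := Fintype.card_le_of_injective _ h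
  simpa using this

theorem main (n p : ℕ) (hn : 4 ≤ n) (hp : p.Prime) (hdvd : p ∣ n * (n - 1))
    (hbig : n ≤ (p - 1) * (p - 2)) : ¬ Tiles n {t | t.IsSwap} := by
  rintro ⟨Y, hY⟩
  have hp2 : 2 < p := by
    by_contra hcon
    have : p - 2 = 0 := by omega
    rw [this, Nat.mul_zero] at hbig
    omega
  set m := p - 1 with hm
  have hm2 : 2 ≤ m := by omega
  let c : Wd n := fun a => ⟨(a : ℕ) / m, lt_of_le_of_lt (Nat.div_le_self _ _) a.2⟩
  have hc : ∀ a, ((c a : ℕ)) = (a : ℕ) / m := fun a => rfl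
  have hT : ∀ g : Perm (Fin n), ∃! q : Perm (Fin n) × Perm (Fin n),
      q.1.IsSwap ∧ q.2 ∈ Y ∧ q.1 * q.2 = g := hY
  have hpos := D_pos m n hm2 (by omega) (by
    have : p - 2 = m - 1 := by omega
    rw [← this]; exact hbig)
  have hcond : 2 * ∑ a : Fin n, ((c a : ℕ) : ℝ)
      < ∑ a : Fin n, ∑ b : Fin n, (if a ≠ b ∧ c a = c b then (1:ℝ) else 0) := by
    have e1 : ∑ a : Fin n, ((c a : ℕ) : ℝ) = ((∑ a ∈ Finset.range n, ((a / m : ℕ) : ℤ) : ℤ) : ℝ) := by
      rw [← Fin.sum_univ_eq_sum_range (fun a => ((a / m : ℕ) : ℤ)) n, Int.cast_sum]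
      apply Finset.sum_congr rfl
      intro a _
      rw [hc, Int.cast_natCast]
    have e2 : ∑ a : Fin n, ∑ b : Fin n, (if a ≠ b ∧ c a = c b then (1:ℝ) else 0)
        = ((∑ a ∈ Finset.range n, ∑ b ∈ Finset.range n, (if a ≠ b ∧ a / m = b / m then (1:ℤ) else 0) : ℤ) : ℝ) := by
      rw [← Fin.sum_univ_eq_sum_range (fun a => ∑ b ∈ Finset.range n, (if a ≠ b ∧ a / m = b / m then (1:ℤ) else 0)) n]
      push_cast
      apply Finset.sum_congr rfl
      intro a _
      rw [← Fin.sum_univ_eq_sum_range (fun b => (if (a:ℕ) ≠ b ∧ (a:ℕ) / m = b / m then (1:ℝ) else 0)) n]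
      apply Finset.sum_congr rfl
      intro b _
      have h1 : (a ≠ b) ↔ ((a : ℕ) ≠ (b : ℕ)) := by rw [ne_eq, ne_eq, Fin.ext_iff]
      have h2 : (c a = c b) ↔ ((a : ℕ) / m = (b : ℕ) / m) := by rw [Fin.ext_iff, hc, hc]
      simp only [h1, h2]
    rw [e1, e2]
    exact_mod_cast hpos
  have hdiv := divisibility (by omega) Y hT c hcond
  have h1 : p ∣ 2 * ∏ i : Fin n, (Fintype.card {a // c a = i}).factorial := hdvd.trans hdiv
  rcases (hp.dvd_mul).mp h1 with h | h
  · have := Nat.le_of_dvd (by norm_num) h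
    omega
  · obtain ⟨i, _, hi⟩ := (hp.prime.dvd_finsetProd_iff _).mp h
    have h2 := (hp.dvd_factorial).mp hi
    have h3 := class_card m n (by omega) c hc i
    omega

/-! ### the set `T_n` with the identity -/

lemma kernel1 {n : ℕ} (u : Wd n → ℝ)
    (hzero : ∀ w, u w ≠ 0 →
      ∑ a : Fin n, ∑ b : Fin n, (if a ≠ b then u (w ∘ swap a b) else 0) + 2 * u w = 0)
    (hpos : ∀ w, u w ≠ 0 → 2 * ∑ a : Fin n, ((w a : ℕ) : ℝ)
      < ∑ a : Fin n, ∑ b : Fin n, (if a ≠ b ∧ w a = w b then (1:ℝ) else 0) + 2) :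
    ∀ w, u w = 0 := by
  have h := star u
  by_contra hcon
  push Not at hcon
  obtain ⟨w0, hw0⟩ := hcon
  have h1 : ∀ w : Wd n, 2 * ((u w)^2 * ∑ a : Fin n, ((w a : ℕ) : ℝ)
      + u w * ∑ a : Fin n, ∑ b : Fin n, (if w b < w a then u (w ∘ swap a b) else 0))
      = (u w)^2 * (2 * ∑ a : Fin n, ((w a : ℕ) : ℝ)
        - (∑ a : Fin n, ∑ b : Fin n, (if a ≠ b ∧ w a = w b then (1:ℝ) else 0) + 2)) := by
    intro w
    by_cases hu : u w = 0
    · rw [hu]; ring
    · have e := hzero w hu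
      rw [split_sum] at e
      have e' : 2 * ∑ a : Fin n, ∑ b : Fin n, (if w b < w a then u (w ∘ swap a b) else 0)
          = - (u w * (∑ a : Fin n, ∑ b : Fin n, (if a ≠ b ∧ w a = w b then (1:ℝ) else 0) + 2)) := by
        linarith
      calc 2 * ((u w)^2 * ∑ a : Fin n, ((w a : ℕ) : ℝ)
          + u w * ∑ a : Fin n, ∑ b : Fin n, (if w b < w a then u (w ∘ swap a b) else 0))
          = (u w)^2 * (2 * ∑ a : Fin n, ((w a : ℕ) : ℝ))
            + u w * (2 * ∑ a : Fin n, ∑ b : Fin n, (if w b < w a then u (w ∘ swap a b) else 0)) := by ring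
        _ = _ := by rw [e']; ring
  have h2 : 0 ≤ ∑ w : Wd n, (u w)^2 * (2 * ∑ a : Fin n, ((w a : ℕ) : ℝ)
        - (∑ a : Fin n, ∑ b : Fin n, (if a ≠ b ∧ w a = w b then (1:ℝ) else 0) + 2)) := by
    rw [← Finset.sum_congr rfl (fun w _ => h1 w), ← Finset.mul_sum]
    linarith
  have h3 : ∑ w : Wd n, (u w)^2 * (2 * ∑ a : Fin n, ((w a : ℕ) : ℝ)
        - (∑ a : Fin n, ∑ b : Fin n, (if a ≠ b ∧ w a = w b then (1:ℝ) else 0) + 2)) < 0 := by
    apply Finset.sum_neg' _ _
    · intro w _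
      by_cases hu : u w = 0
      · rw [hu]; simp
      · exact mul_nonpos_of_nonneg_of_nonpos (sq_nonneg _) (by linarith [hpos w hu])
    · exact ⟨w0, Finset.mem_univ _, mul_neg_of_pos_of_neg (by positivity) (by linarith [hpos w0 hw0])⟩
  linarith

lemma tile_bij1 {n : ℕ} (Y : Set (Perm (Fin n)))
    (hT : ∀ g : Perm (Fin n), ∃! q : Perm (Fin n) × Perm (Fin n),
      (q.1 = 1 ∨ q.1.IsSwap) ∧ q.2 ∈ Y ∧ q.1 * q.2 = g)
    (F : Perm (Fin n) → ℝ) :
    ∑ q ∈ (Finset.univ.filter (fun q : (Fin n × Fin n) × Perm (Fin n) => q.1.1 < q.1.2 ∧ q.2 ∈ Y)),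
      F (swap q.1.1 q.1.2 * q.2) + ∑ y ∈ Finset.univ.filter (fun y : Perm (Fin n) => y ∈ Y), F y
      = ∑ g : Perm (Fin n), F g := by
  have e0 : ∑ q ∈ (Finset.univ.filter (fun q : (Fin n × Fin n) × Perm (Fin n) =>
        q.1.1 < q.1.2 ∧ q.2 ∈ Y)), F (swap q.1.1 q.1.2 * q.2)
      + ∑ y ∈ Finset.univ.filter (fun y : Perm (Fin n) => y ∈ Y), F y
      = ∑ q ∈ (Finset.univ.filter (fun q : (Fin n × Fin n) × Perm (Fin n) =>
        q.1.1 < q.1.2 ∧ q.2 ∈ Y)).disjSum (Finset.univ.filter (fun y : Perm (Fin n) => y ∈ Y)),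
        F (Sum.elim (fun q : (Fin n × Fin n) × Perm (Fin n) => swap q.1.1 q.1.2 * q.2) id q) := by
    rw [Finset.sum_disjSum]
    rfl
  rw [e0]
  apply Finset.sum_bij (fun (q : ((Fin n × Fin n) × Perm (Fin n)) ⊕ Perm (Fin n)) _ =>
    Sum.elim (fun q => swap q.1.1 q.1.2 * q.2) id q)
  · intro q _; exact Finset.mem_univ _
  · rintro (⟨⟨a, b⟩, y⟩ | y) h1 (⟨⟨a', b'⟩, y'⟩ | y') h2 e
    · have h1' := (Finset.mem_filter.mp (Finset.inl_mem_disjSum.mp h1)).2
      have h2' := (Finset.mem_filter.mp (Finset.inl_mem_disjSum.mp h2)).2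
      simp only [Sum.elim_inl] at h1' h2' e
      obtain ⟨q, _, hq⟩ := hT (swap a b * y)
      have e1 := hq (swap a b, y) ⟨Or.inr ⟨a, b, h1'.1.ne, rfl⟩, h1'.2, rfl⟩
      have e2 := hq (swap a' b', y') ⟨Or.inr ⟨a', b', h2'.1.ne, rfl⟩, h2'.2, e.symm⟩
      have e3 := e1.trans e2.symm
      obtain ⟨e4, e5⟩ := Prod.mk.inj e3
      obtain ⟨e6, e7⟩ := swap_inj a b a' b' h1'.1 h2'.1 e4
      rw [e5, e6, e7]
    · exfalso
      have h1' := (Finset.mem_filter.mp (Finset.inl_mem_disjSum.mp h1)).2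
      have h2' := (Finset.mem_filter.mp (Finset.inr_mem_disjSum.mp h2)).2
      simp only [Sum.elim_inl, Sum.elim_inr, id] at h1' h2' e
      obtain ⟨q, _, hq⟩ := hT (swap a b * y)
      have e1 := hq (swap a b, y) ⟨Or.inr ⟨a, b, h1'.1.ne, rfl⟩, h1'.2, rfl⟩
      have e2 := hq (1, y') ⟨Or.inl rfl, h2', by rw [one_mul, e]⟩
      have e3 := (Prod.mk.inj (e1.trans e2.symm)).1
      have := congrArg (fun t => t a) e3
      simp only [swap_apply_left, Perm.coe_one, id] at this
      exact h1'.1.ne this.symm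
    · exfalso
      have h1' := (Finset.mem_filter.mp (Finset.inr_mem_disjSum.mp h1)).2
      have h2' := (Finset.mem_filter.mp (Finset.inl_mem_disjSum.mp h2)).2
      simp only [Sum.elim_inl, Sum.elim_inr, id] at h1' h2' e
      obtain ⟨q, _, hq⟩ := hT (swap a' b' * y')
      have e1 := hq (swap a' b', y') ⟨Or.inr ⟨a', b', h2'.1.ne, rfl⟩, h2'.2, rfl⟩
      have e2 := hq (1, y) ⟨Or.inl rfl, h1', by rw [one_mul, e]⟩
      have e3 := (Prod.mk.inj (e1.trans e2.symm)).1
      have := congrArg (fun t => t a') e3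
      simp only [swap_apply_left, Perm.coe_one, id] at this
      exact h2'.1.ne this.symm
    · simp only [Sum.elim_inr, id] at e
      rw [e]
  · intro g _
    obtain ⟨⟨t, y⟩, ⟨ht, hy, hg⟩, _⟩ := hT g
    simp only at ht hg hy
    rcases ht with ht | ⟨x, z, hxz, ht⟩
    · refine ⟨Sum.inr y, Finset.inr_mem_disjSum.mpr (Finset.mem_filter.mpr ⟨Finset.mem_univ _, hy⟩), ?_⟩
      simp only [Sum.elim_inr, id]
      rw [← hg, ht, one_mul]
    · rcases lt_or_gt_of_ne hxz with h | h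
      · exact ⟨Sum.inl ((x, z), y), Finset.inl_mem_disjSum.mpr
          (Finset.mem_filter.mpr ⟨Finset.mem_univ _, h, hy⟩), by
            simp only [Sum.elim_inl]; rw [← ht, hg]⟩
      · refine ⟨Sum.inl ((z, x), y), Finset.inl_mem_disjSum.mpr
          (Finset.mem_filter.mpr ⟨Finset.mem_univ _, h, hy⟩), ?_⟩
        simp only [Sum.elim_inl]
        rw [swap_comm, ← ht, hg]
  · rintro (q | q) _ <;> rfl

lemma count_lemma1 {n : ℕ} (Y : Set (Perm (Fin n)))
    (hT : ∀ g : Perm (Fin n), ∃! q : Perm (Fin n) × Perm (Fin n),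
      (q.1 = 1 ∨ q.1.IsSwap) ∧ q.2 ∈ Y ∧ q.1 * q.2 = g)
    (c w : Wd n) :
    ∑ a : Fin n, ∑ b : Fin n, (if a ≠ b then vY Y c (w ∘ swap a b) else 0) + 2 * vY Y c w
      = 2 * ∑ g : Perm (Fin n), (if c ∘ ⇑(g⁻¹) = w then (1:ℝ) else 0) := by
  have h1 : ∑ a : Fin n, ∑ b : Fin n, (if a ≠ b then vY Y c (w ∘ swap a b) else 0)
      = 2 * ∑ a : Fin n, ∑ b : Fin n, (if a < b then vY Y c (w ∘ swap a b) else 0) := by
    have e1 : ∑ a : Fin n, ∑ b : Fin n, (if a < b then vY Y c (w ∘ swap a b) else 0)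
        = ∑ a : Fin n, ∑ b : Fin n, (if b < a then vY Y c (w ∘ swap a b) else 0) := by
      rw [Finset.sum_comm]
      apply Finset.sum_congr rfl
      intro a _
      apply Finset.sum_congr rfl
      intro b _
      rw [swap_comm]
    rw [two_mul]
    nth_rewrite 2 [e1]
    rw [← Finset.sum_add_distrib]
    apply Finset.sum_congr rfl
    intro a _
    rw [← Finset.sum_add_distrib]
    apply Finset.sum_congr rfl
    intro b _
    rcases lt_trichotomy a b with h | h | h
    · simp [h, h.ne, not_lt.mpr h.le]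
    · subst h; simp
    · simp [h, h.ne', not_lt.mpr h.le]
  rw [h1, ← mul_add]
  congr 1
  rw [← tile_bij1 Y hT (fun g => if c ∘ ⇑(g⁻¹) = w then (1:ℝ) else 0)]
  congr 1
  · rw [Finset.sum_filter, Fintype.sum_prod_type, Fintype.sum_prod_type]
    apply Finset.sum_congr rfl
    intro a _
    apply Finset.sum_congr rfl
    intro b _
    unfold vY
    by_cases hab : a < b
    · rw [if_pos hab]
      apply Finset.sum_congr rfl
      intro y _
      simp only [hab, true_and, word_swap]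
      by_cases hy : y ∈ Y
      · simp [hy]
      · simp [hy]
    · simp [hab]
  · unfold vY
    rw [Finset.sum_filter]
    apply Finset.sum_congr rfl
    intro y _
    by_cases hy : y ∈ Y
    · simp [hy]
    · simp [hy]

lemma divisibility1 {n : ℕ} (hn : 2 ≤ n) (Y : Set (Perm (Fin n)))
    (hT : ∀ g : Perm (Fin n), ∃! q : Perm (Fin n) × Perm (Fin n),
      (q.1 = 1 ∨ q.1.IsSwap) ∧ q.2 ∈ Y ∧ q.1 * q.2 = g)
    (c : Wd n) (hc : 2 * ∑ a : Fin n, ((c a : ℕ) : ℝ)
      < ∑ a : Fin n, ∑ b : Fin n, (if a ≠ b ∧ c a = c b then (1:ℝ) else 0) + 2) :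
    n * (n - 1) + 2 ∣ 2 * ∏ i : Fin n, (Fintype.card {a // c a = i}).factorial := by
  set N : ℝ := ∑ k : Perm (Fin n), (if c ∘ ⇑k = c then (1:ℝ) else 0) with hN
  set M : ℝ := (n:ℝ) * ((n:ℝ) - 1) + 2 with hM
  have hM0 : M ≠ 0 := by
    have : (2:ℝ) ≤ n := by exact_mod_cast hn
    rw [hM]
    nlinarith
  have hcount : ∑ a : Fin n, ∑ b : Fin n, (if a ≠ b then (1:ℝ) else 0) = M - 2 := by
    have : ∀ a : Fin n, ∑ b : Fin n, (if a ≠ b then (1:ℝ) else 0) = (n:ℝ) - 1 := by
      intro a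
      have e : ∀ b : Fin n, (if a ≠ b then (1:ℝ) else 0) = 1 - (if a = b then 1 else 0) := by
        intro b; by_cases h : a = b <;> simp [h]
      rw [Finset.sum_congr rfl (fun b _ => e b), Finset.sum_sub_distrib]
      simp
    rw [Finset.sum_congr rfl (fun a _ => this a)]
    simp [hM]
    ring
  let u : Wd n → ℝ := fun w => if (∃ g : Perm (Fin n), c ∘ ⇑(g⁻¹) = w) then vY Y c w - 2 * N / M else 0
  have hu0 : ∀ w, u w ≠ 0 → ∃ g : Perm (Fin n), c ∘ ⇑(g⁻¹) = w := by
    intro w hw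
    by_contra hcon
    exact hw (if_neg hcon)
  have hu1 : ∀ w, (∃ g : Perm (Fin n), c ∘ ⇑(g⁻¹) = w) → u w = vY Y c w - 2 * N / M :=
    fun w hw => if_pos hw
  have hk := kernel1 u (by
    intro w hw
    obtain ⟨g, hg⟩ := hu0 w hw
    have hmem : ∀ a b : Fin n, ∃ g' : Perm (Fin n), c ∘ ⇑(g'⁻¹) = w ∘ swap a b := by
      intro a b
      refine ⟨swap a b * g, ?_⟩
      have e := (word_swap c (w ∘ swap a b) a b g).mp
      apply e
      rw [hg]
      funext x
      simp
    have e1 : ∀ a b : Fin n, (if a ≠ b then u (w ∘ swap a b) else 0)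
        = (if a ≠ b then vY Y c (w ∘ swap a b) else 0) - (2 * N / M) * (if a ≠ b then (1:ℝ) else 0) := by
      intro a b
      rw [hu1 _ (hmem a b)]
      split_ifs <;> simp
    have e2 := count_lemma1 Y hT c w
    rw [hu1 w ⟨g, hg⟩]
    simp only [e1, Finset.sum_sub_distrib, ← Finset.mul_sum]
    rw [hcount]
    rw [← hg, stab_count c g, ← hN] at e2
    rw [← hg]
    have e3 : 2 * N / M * M = 2 * N := by field_simp
    linarith) (by
    intro w hw
    obtain ⟨g, hg⟩ := hu0 w hw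
    rw [← hg]
    have e1 : ∑ a : Fin n, (((c ∘ ⇑(g⁻¹)) a : ℕ) : ℝ) = ∑ a : Fin n, ((c a : ℕ) : ℝ) :=
      Equiv.sum_comp g⁻¹ (fun a => ((c a : ℕ) : ℝ))
    have e2 : ∑ a : Fin n, ∑ b : Fin n, (if a ≠ b ∧ (c ∘ ⇑(g⁻¹)) a = (c ∘ ⇑(g⁻¹)) b then (1:ℝ) else 0)
        = ∑ a : Fin n, ∑ b : Fin n, (if a ≠ b ∧ c a = c b then (1:ℝ) else 0) := by
      rw [← Equiv.sum_comp g⁻¹ (fun a => ∑ b : Fin n, (if a ≠ b ∧ c a = c b then (1:ℝ) else 0))]
      apply Finset.sum_congr rfl
      intro a _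
      rw [← Equiv.sum_comp g⁻¹ (fun b => (if (g⁻¹ a) ≠ b ∧ c (g⁻¹ a) = c b then (1:ℝ) else 0))]
      apply Finset.sum_congr rfl
      intro b _
      have : ((g⁻¹ a) ≠ (g⁻¹ b)) ↔ a ≠ b := (g⁻¹).injective.ne_iff
      simp only [this, Function.comp]
    rw [e1, e2]
    exact hc)
  have h1 := hk c
  rw [hu1 c ⟨1, by simp⟩] at h1
  have h2 : vY Y c c * M = 2 * N := by
    have : vY Y c c = 2 * N / M := by linarith
    rw [this]; field_simp
  obtain ⟨V, hV⟩ : ∃ V : ℕ, vY Y c c = (V : ℝ) := by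
    refine ⟨(Finset.univ.filter (fun y : Perm (Fin n) => y ∈ Y ∧ c ∘ ⇑(y⁻¹) = c)).card, ?_⟩
    unfold vY
    rw [Finset.card_filter]
    push_cast
    rfl
  rw [hV, hN, stab_card c, hM] at h2
  refine ⟨V, ?_⟩
  have h3 : ((2 * ∏ i : Fin n, (Fintype.card {a // c a = i}).factorial : ℕ) : ℝ)
      = (((n * (n-1) + 2) * V : ℕ) : ℝ) := by
    push_cast [Nat.cast_sub (show 1 ≤ n by omega)]
    push_cast at h2
    rw [← h2]; ring
  exact_mod_cast h3

lemma D_nonneg (m n : ℕ) (hm : 2 ≤ m) (hnm : n ≤ m * m) :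
    2 * ∑ a ∈ Finset.range n, ((a / m : ℕ) : ℤ)
      < ∑ a ∈ Finset.range n, ∑ b ∈ Finset.range n, (if a ≠ b ∧ a / m = b / m then (1:ℤ) else 0) + 2 := by
  rw [E_formula m n (by omega)]
  have h := D_formula m n (by omega)
  suffices hpos : 0 ≤ (m:ℤ) * (n / m : ℕ) * ((m:ℤ) - (n / m : ℕ)) + ((n % m : ℕ) : ℤ) * (((n % m : ℕ) : ℤ) - 1)
        - 2 * ((n / m : ℕ) : ℤ) * ((n % m : ℕ) : ℤ) by linarith
  have hn' := Nat.div_add_mod n m
  have hj := Nat.mod_lt n (show 0 < m by omega)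
  obtain ⟨i, hi⟩ : ∃ i, i = n / m := ⟨_, rfl⟩
  obtain ⟨j, hj'⟩ : ∃ j, j = n % m := ⟨_, rfl⟩
  rw [← hi, ← hj'] at hn' ⊢
  rw [← hj'] at hj
  have hik : i ≤ m := by
    by_contra hcon
    have : m * (m + 1) ≤ m * i := Nat.mul_le_mul_left _ (by omega)
    nlinarith
  have h3 : 0 ≤ ((j:ℤ) - i) * ((j:ℤ) - i - 1) := by
    rcases le_or_gt ((j:ℤ) - i) 0 with h | h
    · nlinarith
    · have : 1 ≤ (j:ℤ) - i := h
      nlinarith
  rcases Nat.lt_or_ge i m with h1 | h1
  · have hi2 : (i:ℤ) + 1 ≤ m := by exact_mod_cast h1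
    have hi0 : (0:ℤ) ≤ i := by positivity
    have h4 : 0 ≤ (i:ℤ) * ((m:ℤ) * (m-i) - i - 1) := by
      apply mul_nonneg hi0
      nlinarith
    nlinarith
  · have hi1 : i = m := by omega
    subst hi1
    have hj0 : j = 0 := by
      omega
    subst hj0
    push_cast
    nlinarith

theorem main1 (n p : ℕ) (hn : 4 ≤ n) (hp : p.Prime) (hdvd : p ∣ n * (n - 1) + 2)
    (hbig : n ≤ (p - 1) * (p - 1)) : ¬ Tiles n {t | t = 1 ∨ t.IsSwap} := by
  rintro ⟨Y, hY⟩
  have hp2 : 2 < p := by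
    by_contra hcon
    have : p - 1 ≤ 1 := by omega
    have : (p - 1) * (p - 1) ≤ 1 * 1 := Nat.mul_le_mul this this
    omega
  set m := p - 1 with hm
  have hm2 : 2 ≤ m := by omega
  let c : Wd n := fun a => ⟨(a : ℕ) / m, lt_of_le_of_lt (Nat.div_le_self _ _) a.2⟩
  have hc : ∀ a, ((c a : ℕ)) = (a : ℕ) / m := fun a => rfl
  have hT : ∀ g : Perm (Fin n), ∃! q : Perm (Fin n) × Perm (Fin n),
      (q.1 = 1 ∨ q.1.IsSwap) ∧ q.2 ∈ Y ∧ q.1 * q.2 = g := hY
  have hpos := D_nonneg m n hm2 hbig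
  have hcond : 2 * ∑ a : Fin n, ((c a : ℕ) : ℝ)
      < ∑ a : Fin n, ∑ b : Fin n, (if a ≠ b ∧ c a = c b then (1:ℝ) else 0) + 2 := by
    have e1 : ∑ a : Fin n, ((c a : ℕ) : ℝ) = ((∑ a ∈ Finset.range n, ((a / m : ℕ) : ℤ) : ℤ) : ℝ) := by
      rw [← Fin.sum_univ_eq_sum_range (fun a => ((a / m : ℕ) : ℤ)) n, Int.cast_sum]
      apply Finset.sum_congr rfl
      intro a _
      rw [hc, Int.cast_natCast]
    have e2 : ∑ a : Fin n, ∑ b : Fin n, (if a ≠ b ∧ c a = c b then (1:ℝ) else 0)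
        = ((∑ a ∈ Finset.range n, ∑ b ∈ Finset.range n, (if a ≠ b ∧ a / m = b / m then (1:ℤ) else 0) : ℤ) : ℝ) := by
      rw [← Fin.sum_univ_eq_sum_range (fun a => ∑ b ∈ Finset.range n, (if a ≠ b ∧ a / m = b / m then (1:ℤ) else 0)) n]
      push_cast
      apply Finset.sum_congr rfl
      intro a _
      rw [← Fin.sum_univ_eq_sum_range (fun b => (if (a:ℕ) ≠ b ∧ (a:ℕ) / m = b / m then (1:ℝ) else 0)) n]
      apply Finset.sum_congr rfl
      intro b _
      have h1 : (a ≠ b) ↔ ((a : ℕ) ≠ (b : ℕ)) := by rw [ne_eq, ne_eq, Fin.ext_iff]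
      have h2 : (c a = c b) ↔ ((a : ℕ) / m = (b : ℕ) / m) := by rw [Fin.ext_iff, hc, hc]
      simp only [h1, h2]
    rw [e1, e2]
    exact_mod_cast hpos
  have hdiv := divisibility1 (by omega) Y hT c hcond
  have h1 : p ∣ 2 * ∏ i : Fin n, (Fintype.card {a // c a = i}).factorial := hdvd.trans hdiv
  rcases (hp.dvd_mul).mp h1 with h | h
  · have := Nat.le_of_dvd (by norm_num) h
    omega
  · obtain ⟨i, _, hi⟩ := (hp.prime.dvd_finsetProd_iff _).mp h
    have h2 := (hp.dvd_factorial).mp hi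
    have h3 := class_card m n (by omega) c hc i
    omega


/-- **Transpositions and tilings of `S_n`, `n ≥ 4`.**  Here `T_n^*` is the set of transpositions and
`T_n` the set of transpositions together with the identity.
(A) If `T_n^*` tiles `S_n`, then for every colouring `c` of `{0,…,n-1}` by `{0,…,n-1}` whose
    number of ordered monochromatic pairs exceeds twice the sum of the colours (that is, the content
    of the partition into colour classes is positive), `n (n-1)` divides `2 ∏ᵢ |c⁻¹(i)|!`.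
(B) If a prime `p` divides `n (n-1)` and `n ≤ (p-1)(p-2)`, then `T_n^*` does not tile `S_n`.
(C) If a prime `q` divides `n (n-1) + 2 = 2 |T_n|` and `n ≤ (q-1)^2`, then `T_n` does not tile
    `S_n`.
So the assertion of Q1 holds for every `n` satisfying the hypotheses of both (B) and (C). -/
theorem result (n : ℕ) (hn : 4 ≤ n) :
    (∀ c : Fin n → Fin n, Tiles n {t | t.IsSwap} →
      2 * ∑ a : Fin n, ((c a : ℕ))
        < (Finset.univ.filter (fun q : Fin n × Fin n => q.1 ≠ q.2 ∧ c q.1 = c q.2)).card →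
      n * (n - 1) ∣ 2 * ∏ i : Fin n, (Fintype.card {a // c a = i}).factorial) ∧
    (∀ p : ℕ, p.Prime → p ∣ n * (n - 1) → n ≤ (p - 1) * (p - 2) → ¬ Tiles n {t | t.IsSwap}) ∧
    (∀ q : ℕ, q.Prime → q ∣ n * (n - 1) + 2 → n ≤ (q - 1) * (q - 1) →
      ¬ Tiles n {t | t = 1 ∨ t.IsSwap}) := by
  refine ⟨?_, fun p hp hdvd hbig => main n p hn hp hdvd hbig,
    fun q hq hdvd hbig => main1 n q hn hq hdvd hbig⟩
  rintro c ⟨Y, hY⟩ hc
  apply divisibility (by omega) Y hY c
  rw [Finset.card_filter, Fintype.sum_prod_type] at hc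
  have hc' : ((2 * ∑ a : Fin n, ((c a : ℕ)) : ℕ) : ℝ)
      < ((∑ a : Fin n, ∑ b : Fin n, (if a ≠ b ∧ c a = c b then 1 else 0) : ℕ) : ℝ) := by
    exact_mod_cast hc
  push_cast at hc'
  exact hc'

end Pool.Agent.Results.MP_bfa556_co.TranspositionsDoNotTile
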